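import Pool.Agent.Helper83.BR.QuatAz
import Pool.Agent.Helper62.BR.GB
import Pool.Agent.Helper28.BR.Azu

/-!
# QM: quaternion algebras are generically central simple
-/

set_option autoImplicit false

namespace Pool.Agent.Helper17.QM

open Quaternion TensorProduct

/-- the homomorphism of the quaternion algebras over `R` and over an `R`-algebra `F` -/
noncomputable def qmap {R : Type} [CommRing R] (a b : R) (F : Type) [CommRing F] [Algebra R F] :
    QuaternionAlgebra R a 0 b →ₐ[R]
      QuaternionAlgebra F (algebraMap R F a) 0 (algebraMap R F b) where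
  toFun q := ⟨algebraMap R F q.re, algebraMap R F q.imI, algebraMap R F q.imJ,
    algebraMap R F q.imK⟩
  map_one' := by ext <;> simp
  map_mul' u v := by ext <;> simp
  map_zero' := by ext <;> simp
  map_add' u v := by ext <;> simp
  commutes' c := by
    ext
    · rfl
    · exact map_zero _
    · exact map_zero _
    · exact map_zero _

/-- base change of quaternion algebras -/
theorem exists_equiv {R : Type} [CommRing R] (a b : R) (F : Type) [Field F] [Algebra R F] :
    Nonempty ((F ⊗[R] QuaternionAlgebra R a 0 b) ≃ₐ[F]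
      QuaternionAlgebra F (algebraMap R F a) 0 (algebraMap R F b)) := by
  classical
  have hnt : Nontrivial R := by
    by_contra h
    rw [not_nontrivial_iff_subsingleton] at h
    have := congrArg (algebraMap R F) (Subsingleton.elim (1 : R) 0)
    rw [map_one, map_zero] at this
    exact one_ne_zero this
  set e : (F ⊗[R] QuaternionAlgebra R a 0 b) →ₐ[F]
      QuaternionAlgebra F (algebraMap R F a) 0 (algebraMap R F b) :=
    Algebra.TensorProduct.lift (Algebra.ofId F _) (qmap a b F)
      (fun x y => (Algebra.commutes x (qmap a b F y) : _)) with he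
  have hval : ∀ (x : F) (q : QuaternionAlgebra R a 0 b), e (x ⊗ₜ q) = x • qmap a b F q := by
    intro x q
    rw [he, Algebra.smul_def]
    exact Algebra.TensorProduct.lift_tmul _ _ _ _ _
  have hsurj : Function.Surjective e := by
    intro q
    refine ⟨q.re ⊗ₜ ⟨1, 0, 0, 0⟩ + q.imI ⊗ₜ ⟨0, 1, 0, 0⟩ + q.imJ ⊗ₜ ⟨0, 0, 1, 0⟩ +
      q.imK ⊗ₜ ⟨0, 0, 0, 1⟩, ?_⟩
    rw [map_add, map_add, map_add, hval, hval, hval, hval]
    ext <;> simp [qmap]
  have hfr : Module.finrank F (F ⊗[R] QuaternionAlgebra R a 0 b) =
      Module.finrank F (QuaternionAlgebra F (algebraMap R F a) 0 (algebraMap R F b)) := by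
    rw [Module.finrank_baseChange, QuaternionAlgebra.finrank_eq_four,
      QuaternionAlgebra.finrank_eq_four]
  have hinj : Function.Injective e :=
    (LinearMap.injective_iff_surjective_of_finrank_eq_finrank (f := e.toLinearMap) hfr).mpr hsurj
  exact ⟨AlgEquiv.ofBijective e ⟨hinj, hsurj⟩⟩

/-- **Q7** over any field of characteristic zero -/
theorem quat_field {R : Type} [CommRing R] (a b : R) (F : Type) [Field F] [CharZero F]
    [Algebra R F] (ha : algebraMap R F a ≠ 0) (hb : algebraMap R F b ≠ 0) :
    Algebra.IsCentral F (F ⊗[R] QuaternionAlgebra R a 0 b) ∧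
    IsSimpleRing (F ⊗[R] QuaternionAlgebra R a 0 b) ∧
    Module.finrank F (F ⊗[R] QuaternionAlgebra R a 0 b) = 2 ^ 2 := by
  obtain ⟨e⟩ := exists_equiv a b F
  have h2 : (2 : F) ≠ 0 := two_ne_zero
  have hA := Pool.Agent.Helper83.BR.quat_azumaya (algebraMap R F a) (algebraMap R F b)
    (isUnit_iff_ne_zero.mpr ha) (isUnit_iff_ne_zero.mpr hb) (isUnit_iff_ne_zero.mpr h2)
  have hfin : Module.finrank F (QuaternionAlgebra F (algebraMap R F a) 0 (algebraMap R F b)) = 4 :=
    QuaternionAlgebra.finrank_eq_four _ _ _
  have hnt : Nontrivial (QuaternionAlgebra F (algebraMap R F a) 0 (algebraMap R F b)) := by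
    refine Module.nontrivial_of_finrank_pos (R := F) ?_
    rw [hfin]
    norm_num
  obtain ⟨h3, h4⟩ := Pool.Agent.Helper62.BR.simple_of_az
    (Pool.Agent.Helper28.BR.az_of_azumaya (R := F)
      (A := QuaternionAlgebra F (algebraMap R F a) 0 (algebraMap R F b)))
  refine ⟨Algebra.IsCentral.of_algEquiv F _ _ e.symm, ?_, ?_⟩
  · exact IsSimpleRing.of_ringEquiv e.symm.toRingEquiv h3
  · rw [e.toLinearEquiv.finrank_eq, hfin]
    norm_num

/-- **Q7.** quaternion algebras are generically central simple of dimension four -/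
theorem quat_generic {R : Type} [CommRing R] [IsDomain R] [CharZero R] (a b : R) (ha : a ≠ 0)
    (hb : b ≠ 0) :
    Algebra.IsCentral (FractionRing R) (TensorProduct R (FractionRing R) (QuaternionAlgebra R a 0 b)) ∧
    IsSimpleRing (TensorProduct R (FractionRing R) (QuaternionAlgebra R a 0 b)) ∧
    Module.finrank (FractionRing R)
      (TensorProduct R (FractionRing R) (QuaternionAlgebra R a 0 b)) = 2 ^ 2 := by
  have hinj : Function.Injective (algebraMap R (FractionRing R)) :=
    IsFractionRing.injective R (FractionRing R)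
  have hc : CharZero (FractionRing R) := charZero_of_injective_algebraMap hinj
  exact quat_field a b (FractionRing R) ((map_ne_zero_iff _ hinj).mpr ha)
    ((map_ne_zero_iff _ hinj).mpr hb)

end Pool.Agent.Helper17.QM
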