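import Pool.Agent.Helper35.BR.Defs

/-!
# QM: representations of quaternion algebras and points of conics
-/

set_option autoImplicit false

namespace Pool.Agent.Helper17.QM

open Matrix Pool.Agent.Helper35.BR

/-- **Q5.** a representation of the quaternion algebra over a field gives a point of the conic. -/
theorem conic_of_rep {L : Type} [Field L] [CharZero L] {R : Type} [CommRing R] (φ : R →+* L)
    (a b : R) (ha : φ a ≠ 0) (hb : φ b ≠ 0)
    (ρ : QuaternionAlgebra R a 0 b →+* Matrix (Fin 2) (Fin 2) L)
    (hρ : Pool.Agent.Helper35.BR.Over φ ρ) :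
    ∃ x y : L, x ^ 2 = φ a * y ^ 2 + φ b := by
  have h2 : (2 : L) ≠ 0 := two_ne_zero
  set I := ρ ⟨0, 1, 0, 0⟩ with hI
  set J := ρ ⟨0, 0, 1, 0⟩ with hJ
  have hII : I * I = algebraMap L (Matrix (Fin 2) (Fin 2) L) (φ a) := by
    rw [hI, ← map_mul, ← hρ a]
    congr 1
    ext <;> simp
  have hJJ : J * J = algebraMap L (Matrix (Fin 2) (Fin 2) L) (φ b) := by
    rw [hJ, ← map_mul, ← hρ b]
    congr 1
    ext <;> simp
  have hIJ : I * J + J * I = 0 := by
    rw [hI, hJ, ← map_mul, ← map_mul, ← map_add, ← map_zero ρ]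
    congr 1
    ext <;> simp
  obtain ⟨p, hp⟩ : ∃ p, I 0 0 = p := ⟨_, rfl⟩
  obtain ⟨q, hq⟩ : ∃ p, I 0 1 = p := ⟨_, rfl⟩
  obtain ⟨r, hr⟩ : ∃ p, I 1 0 = p := ⟨_, rfl⟩
  obtain ⟨s, hs⟩ : ∃ p, I 1 1 = p := ⟨_, rfl⟩
  obtain ⟨p', hp'⟩ : ∃ p, J 0 0 = p := ⟨_, rfl⟩
  obtain ⟨q', hq'⟩ : ∃ p, J 0 1 = p := ⟨_, rfl⟩
  obtain ⟨r', hr'⟩ : ∃ p, J 1 0 = p := ⟨_, rfl⟩
  obtain ⟨s', hs'⟩ : ∃ p, J 1 1 = p := ⟨_, rfl⟩
  have e1 := congrFun (congrFun hII 0) 0
  have e2 := congrFun (congrFun hII 0) 1
  have e3 := congrFun (congrFun hII 1) 0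
  have e4 := congrFun (congrFun hII 1) 1
  have f1 := congrFun (congrFun hJJ 0) 0
  have f2 := congrFun (congrFun hJJ 0) 1
  have f3 := congrFun (congrFun hJJ 1) 0
  have f4 := congrFun (congrFun hJJ 1) 1
  have g1 := congrFun (congrFun hIJ 0) 0
  have g2 := congrFun (congrFun hIJ 0) 1
  have g3 := congrFun (congrFun hIJ 1) 0
  have g4 := congrFun (congrFun hIJ 1) 1
  simp only [Matrix.mul_apply, Matrix.add_apply, Fin.sum_univ_two, hp, hq, hr, hs, hp', hq', hr',
    hs', Matrix.algebraMap_matrix_apply, Matrix.zero_apply, Algebra.algebraMap_self,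
    RingHom.id_apply] at e1 e2 e3 e4 f1 f2 f3 f4 g1 g2 g3 g4
  simp at e1 e2 e3 e4 f1 f2 f3 f4
  -- the trace of `I` is zero
  have hs0 : s = -p := by
    by_contra hne
    have hps : p + s ≠ 0 := fun h => hne (by linear_combination h)
    have hq0 : q = 0 := by
      have : q * (p + s) = 0 := by linear_combination e2
      exact (mul_eq_zero.mp this).resolve_right hps
    have hr0 : r = 0 := by
      have : r * (p + s) = 0 := by linear_combination e3
      exact (mul_eq_zero.mp this).resolve_right hps
    subst hq0 hr0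
    have hps2 : p = s := by
      have : (p - s) * (p + s) = 0 := by linear_combination e1 - e4
      have := (mul_eq_zero.mp this).resolve_right hps
      linear_combination this
    subst hps2
    have hp0 : p ≠ 0 := by
      rintro rfl
      exact ha (by linear_combination -e1)
    have h3 : p' = 0 := by
      have : (2 * p) * p' = 0 := by linear_combination g1
      exact (mul_eq_zero.mp this).resolve_left (mul_ne_zero h2 hp0)
    have h4 : q' = 0 := by
      have : (2 * p) * q' = 0 := by linear_combination g2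
      exact (mul_eq_zero.mp this).resolve_left (mul_ne_zero h2 hp0)
    exact hb (by rw [← f1, h3, h4]; ring)
  have hs0' : s' = -p' := by
    by_contra hne
    have hps : p' + s' ≠ 0 := fun h => hne (by linear_combination h)
    have hq0 : q' = 0 := by
      have : q' * (p' + s') = 0 := by linear_combination f2
      exact (mul_eq_zero.mp this).resolve_right hps
    have hr0 : r' = 0 := by
      have : r' * (p' + s') = 0 := by linear_combination f3
      exact (mul_eq_zero.mp this).resolve_right hps
    subst hq0 hr0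
    have hps2 : p' = s' := by
      have : (p' - s') * (p' + s') = 0 := by linear_combination f1 - f4
      have := (mul_eq_zero.mp this).resolve_right hps
      linear_combination this
    subst hps2
    have hp0 : p' ≠ 0 := by
      rintro rfl
      exact hb (by linear_combination -f1)
    have h3 : p = 0 := by
      have : (2 * p') * p = 0 := by linear_combination g1
      exact (mul_eq_zero.mp this).resolve_left (mul_ne_zero h2 hp0)
    have h4 : q = 0 := by
      have : (2 * p') * q = 0 := by linear_combination g2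
      exact (mul_eq_zero.mp this).resolve_left (mul_ne_zero h2 hp0)
    exact ha (by rw [← e1, h3, h4]; ring)
  subst hs0 hs0'
  by_cases hr0 : r = 0
  · by_cases hq0 : q = 0
    · subst hr0 hq0
      have hp0 : p ≠ 0 := by
        rintro rfl
        exact ha (by linear_combination -e1)
      have h3 : p' = 0 := by
        have : (2 * p) * p' = 0 := by linear_combination g1
        exact (mul_eq_zero.mp this).resolve_left (mul_ne_zero h2 hp0)
      refine ⟨(q' + r') / 2, (q' - r') / (2 * p), ?_⟩
      rw [← e1, ← f1, h3]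
      field_simp
      ring
    · refine ⟨(p * q' - q * p') / q, q' / q, ?_⟩
      rw [← e1, ← f1]
      field_simp
      linear_combination (-(q * q')) * g1
  · refine ⟨(p * r' - r * p') / r, r' / r, ?_⟩
    rw [← e1, ← f1]
    field_simp
    linear_combination (-(r * r')) * g1

/-- **Q6.** points of the conic give representations. -/
theorem rep_of_conic {S : Type} [CommRing S] {R : Type} [CommRing R] (φ : R →+* S)
    (a b : R) (x y : S) (hxy : x ^ 2 = φ a * y ^ 2 + φ b) :
    ∃ ρ : QuaternionAlgebra R a 0 b →+* Matrix (Fin 2) (Fin 2) S,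
      Pool.Agent.Helper35.BR.Over φ ρ := by
  refine ⟨{ toFun := fun q => !![φ q.re + φ q.imJ * x + φ q.imK * (φ a * y),
              φ q.imI * φ a - φ q.imJ * (φ a * y) - φ q.imK * (φ a * x);
              φ q.imI + φ q.imJ * y + φ q.imK * x,
              φ q.re - φ q.imJ * x - φ q.imK * (φ a * y)]
            map_one' := ?_
            map_mul' := ?_
            map_zero' := ?_
            map_add' := ?_ }, ?_⟩
  · ext i j
    fin_cases i <;> fin_cases j <;> simp
  · intro u v
    ext i j
    fin_cases i <;> fin_cases j <;>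
      simp [Matrix.mul_apply, Fin.sum_univ_two, map_add, map_mul, map_sub]
    · linear_combination (-(φ u.imJ * φ v.imJ) + φ a * (φ u.imK * φ v.imK)) * hxy
    · linear_combination (φ a * (φ u.imJ * φ v.imK - φ u.imK * φ v.imJ)) * hxy
    · linear_combination (φ u.imJ * φ v.imK - φ u.imK * φ v.imJ) * hxy
    · linear_combination (-(φ u.imJ * φ v.imJ) + φ a * (φ u.imK * φ v.imK)) * hxy
  · ext i j
    fin_cases i <;> fin_cases j <;> simp
  · intro u v
    ext i j
    fin_cases i <;> fin_cases j <;> simp <;> ring
  · intro c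
    ext i j
    change (!![_, _; _, _] : Matrix (Fin 2) (Fin 2) S) i j = _
    rw [Matrix.algebraMap_matrix_apply]
    fin_cases i <;> fin_cases j <;> simp [QuaternionAlgebra.algebraMap_eq]

end Pool.Agent.Helper17.QM
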